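import Mathlib
import Pool.Agent.TH165.ACC.BddGeo

/-!
# Divisors of bounded log discrepancy compute the minimal log discrepancies on toric germs

`ToricGerm n K`: an affine toric variety of dimension `n` with function field `K` and with a fixed
point `P`, given by any strictly convex rational cone of dimension `n`. The boundary `B` is an
arbitrary effective `ℝ`-divisor on it. Both `K_X` and `K_X + B` are `ℝ`-Cartier at `P`, with the
local equations `e0` and `e`. The minimal log discrepancy is taken over all prime divisors over the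
germ.
-/

set_option autoImplicit false

namespace Pool.Agent.Results.MP_43381c_ag.ToricGermsBounded

open Pool.Agent.TH165.ACC Pool.Agent.W497.Mld Pool.Agent.H436R3.KT

/-- For every `n` and every DCC set `Γ` there is a real number `L` such that for all toric germs
`X ∋ P` of dimension `n`, and all boundaries `B` with coefficients in `Γ` which are nondegenerate at
`P`, or such that the minimal log discrepancy `m ≥ 0` is the log discrepancy of a monomial
valuation, some prime divisor `E` over `X ∋ P` has `a(E, X, B) = m` and `a(E, X, 0) ≤ L`. -/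
theorem result (n : ℕ) (Γ : Set ℝ) (hΓ : Pool.Agent.TH165.ACC.IsDCC Γ) :
    ∃ L : ℝ, ∀ (g : ToricGerm n (FractionRing (MvPolynomial (Fin n) ℂ))) (B : EffDiv g.X)
      (e : LocEq B g.P) (e0 : LocEq (zeroDiv g.X) g.P) (m : ℝ), CoeffIn B Γ → 0 ≤ m →
      Pool.Agent.W497.Mld.IsMld e m → (Computed e m ∨ NondegBoundary g B) →
      ∃ v, IsOverGerm g.P v ∧ IsLogDisc e v m ∧ ∃ t ≤ L, IsLogDisc e0 v t := by
  obtain ⟨L, hL⟩ := geo_bounded (n := n) (K := FractionRing (MvPolynomial (Fin n) ℂ)) hΓ
  refine ⟨L, fun g B e e0 m hB h0 hm hc => ?_⟩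
  obtain ⟨v, h1, -, h2, h3⟩ := hL g B e e0 m hB h0 hm hc
  exact ⟨v, h1, h2, h3⟩

end Pool.Agent.Results.MP_43381c_ag.ToricGermsBounded
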